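import Mathlib

/-!
# Project UL, packages LT and TA: the abstract part
-/

set_option autoImplicit false

namespace Pool.Agent.P8H72.UL

variable {G A : Type*} [Group G] [AddCommGroup A] {T : G → A →+ A}

/-- an action of a group by homomorphisms -/
structure Act (T : G → A →+ A) : Prop where
  one : ∀ P, T 1 P = P
  mul : ∀ σ τ P, T (σ * τ) P = T σ (T τ P)

/-- a cocycle -/
def Coc (T : G → A →+ A) (d : G → A) : Prop := ∀ σ τ, d (σ * τ) = d σ + T σ (d τ)

theorem Coc.one {d : G → A} (hT : Act T) (hd : Coc T d) : d 1 = 0 := by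
  have h := hd 1 1
  rw [mul_one, hT.one] at h
  exact left_eq_add.1 h

theorem Coc.pow {d : G → A} (hT : Act T) (hd : Coc T d) (φ : G) (k : ℕ) :
    d (φ ^ k) = ∑ i ∈ Finset.range k, T (φ ^ i) (d φ) := by
  induction k with
  | zero => simp [hd.one hT]
  | succ k ih => rw [pow_succ, hd, Finset.sum_range_succ, ih]

theorem Coc.sub {d e : G → A} (hd : Coc T d) (he : Coc T e) : Coc T (fun σ => d σ - e σ) := by
  intro σ τ
  beta_reduce
  rw [hd σ τ, he σ τ, map_sub]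
  abel

theorem Coc.bd (hT : Act T) (P : A) : Coc T (fun σ => T σ P - P) := by
  intro σ τ
  beta_reduce
  rw [hT.mul, map_sub]
  abel

/-- the translates of an invariant element are invariant -/
theorem inv_act (hT : Act T) {N : Subgroup G} (hN : N.Normal) {x : A} (hx : ∀ σ ∈ N, T σ x = x)
    (τ : G) : ∀ σ ∈ N, T σ (T τ x) = T τ x := by
  intro σ hσ
  have h1 : σ * τ = τ * (τ⁻¹ * σ * τ) := by group
  rw [← hT.mul, h1, hT.mul]
  congr 1
  refine hx _ ?_
  have := hN.conj_mem σ hσ τ⁻¹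
  rwa [inv_inv] at this

/-- values of a cocycle trivial on a normal subgroup -/
theorem Coc.inv {d : G → A} (hd : Coc T d) {N : Subgroup G} (hN : N.Normal)
    (h0 : ∀ σ ∈ N, d σ = 0) (τ : G) : ∀ σ ∈ N, T σ (d τ) = d τ := by
  intro σ hσ
  have h1 : σ * τ = τ * (τ⁻¹ * σ * τ) := by group
  have h2 : τ⁻¹ * σ * τ ∈ N := by
    have := hN.conj_mem σ hσ τ⁻¹
    rwa [inv_inv] at this
  have h3 := hd σ τ
  rw [h0 σ hσ, zero_add, h1, hd, h0 _ h2, map_zero, add_zero] at h3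
  exact h3.symm

/-- a cocycle which is zero on `N` and at `φ` is zero -/
theorem Coc.zero {d : G → A} (hT : Act T) (hd : Coc T d) {N : Subgroup G}
    (h0 : ∀ σ ∈ N, d σ = 0) {φ : G} (hφ : d φ = 0) (gen : ∀ τ : G, ∃ i : ℕ, (φ ^ i)⁻¹ * τ ∈ N)
    (τ : G) : d τ = 0 := by
  obtain ⟨i, hi⟩ := gen τ
  have h1 : τ = φ ^ i * ((φ ^ i)⁻¹ * τ) := by group
  rw [h1, hd, h0 _ hi, map_zero, add_zero, hd.pow hT, hφ]
  simp

/-- multiples by the order of the quotient -/
theorem exists_mul (hT : Act T) {N : Subgroup G} (hN : N.Normal) (φ : G) (M : ℕ) {a : A}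
    (ha : ∀ σ ∈ N, T σ a = a) (hs : ∑ i ∈ Finset.range M, T (φ ^ i) a = 0) :
    ∃ S : A, (∀ σ ∈ N, T σ S = S) ∧ T φ S - S = M • a := by
  refine ⟨-∑ i ∈ Finset.range M, ∑ l ∈ Finset.range i, T (φ ^ l) a, ?_, ?_⟩
  · intro σ hσ
    rw [map_neg, map_sum]
    congr 1
    refine Finset.sum_congr rfl fun i _ => ?_
    rw [map_sum]
    exact Finset.sum_congr rfl fun l _ => inv_act hT hN ha _ σ hσ
  · have h1 : ∀ i, T φ (∑ l ∈ Finset.range i, T (φ ^ l) a) - ∑ l ∈ Finset.range i, T (φ ^ l) a =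
        T (φ ^ i) a - a := by
      intro i
      rw [map_sum, ← Finset.sum_sub_distrib]
      have h2 : ∀ l ∈ Finset.range i, T φ (T (φ ^ l) a) - T (φ ^ l) a =
          T (φ ^ (l + 1)) a - T (φ ^ l) a := by
        intro l _
        rw [pow_succ', hT.mul]
      rw [Finset.sum_congr rfl h2, Finset.sum_range_sub (fun l => T (φ ^ l) a) i, pow_zero, hT.one]
    have h3 : T φ (∑ i ∈ Finset.range M, ∑ l ∈ Finset.range i, T (φ ^ l) a) -
        ∑ i ∈ Finset.range M, ∑ l ∈ Finset.range i, T (φ ^ l) a = -(M • a) := by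
      rw [map_sum, ← Finset.sum_sub_distrib, Finset.sum_congr rfl fun i _ => h1 i,
        Finset.sum_sub_distrib, hs, Finset.sum_const, Finset.card_range, zero_sub]
    rw [map_neg, sub_neg_eq_add, neg_add_eq_sub, ← neg_sub, h3, neg_neg]

/-- the main step -/
theorem coc_trivial (hT : Act T) {d : G → A} (hd : Coc T d) {N : Subgroup G} (hN : N.Normal)
    (h0 : ∀ σ ∈ N, d σ = 0) {φ : G} {M u : ℕ} (hM : φ ^ M ∈ N)
    (gen : ∀ τ : G, ∃ i : ℕ, (φ ^ i)⁻¹ * τ ∈ N) (hu : Nat.Coprime u M)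
    (hR : ∃ R : A, (∀ σ ∈ N, T σ R = R) ∧ T φ R - R = u • d φ) :
    ∃ P : A, ∀ σ, d σ = T σ P - P := by
  obtain ⟨R, hR1, hR2⟩ := hR
  obtain ⟨S, hS1, hS2⟩ := exists_mul hT hN φ M (hd.inv hN h0 φ)
    ((hd.pow hT φ M).symm.trans (h0 _ hM))
  have hb := Nat.gcd_eq_gcd_ab u M
  rw [hu] at hb
  have hb' : (1 : ℤ) = (u : ℤ) * u.gcdA M + (M : ℤ) * u.gcdB M := by exact_mod_cast hb
  refine ⟨u.gcdA M • R + u.gcdB M • S, ?_⟩
  have key : T φ (u.gcdA M • R + u.gcdB M • S) - (u.gcdA M • R + u.gcdB M • S) = d φ := by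
    rw [map_add, map_zsmul, map_zsmul]
    calc u.gcdA M • T φ R + u.gcdB M • T φ S - (u.gcdA M • R + u.gcdB M • S)
        = u.gcdA M • (T φ R - R) + u.gcdB M • (T φ S - S) := by
          rw [smul_sub, smul_sub]; abel
      _ = ((u : ℤ) * u.gcdA M + (M : ℤ) * u.gcdB M) • d φ := by
          rw [hR2, hS2, ← natCast_zsmul, ← natCast_zsmul, smul_smul, smul_smul, ← add_smul,
            mul_comm, mul_comm (u.gcdB M)]
      _ = d φ := by rw [← hb', one_smul]
  intro σ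
  have h1 := (hd.sub (Coc.bd hT (u.gcdA M • R + u.gcdB M • S))).zero hT (N := N) (φ := φ) ?_ ?_
    gen σ
  · exact sub_eq_zero.1 h1
  · intro σ hσ
    simp only [map_add, map_zsmul, hR1 σ hσ, hS1 σ hσ, h0 σ hσ, sub_self]
  · simp only [key, sub_self]

end Pool.Agent.P8H72.UL
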