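import Pool.Agent.P8H17.UL.Stm
import Pool.Agent.P8H72.UL.Abs

/-!
# Project UL, package LT
-/

set_option autoImplicit false

open WeierstrassCurve

namespace Pool.Agent.P8H72.UL

open Pool.Agent.P8H17.UL

theorem act_T {Ω : Type} [Field Ω] {V : WeierstrassCurve Ω} {G : Subgroup (RingAut Ω)}
    (hV : FixW V G) : Act (T hV) := ⟨T_one hV, T_mul hV⟩

/-- LT: a local cocycle which is trivial over the extension is trivial -/
theorem lt (hco : S_CO) : S_LT := by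
  intro Ω _ _ _ G N φ p m Q hs V hW hV E hE hp c hc P hP
  have hT : Act (T hV) := act_T hV
  have hd : Coc (T hV) (fun σ => c σ - (T hV σ P - P)) := Coc.sub hc (Coc.bd hT P)
  have h0 : ∀ σ ∈ N, (fun σ => c σ - (T hV σ P - P)) σ = 0 := fun σ hσ => by
    simp only [hP σ hσ, sub_self]
  obtain ⟨d, hd'⟩ : ∃ d : G → Pt V, ∀ σ, d σ = c σ - (T hV σ P - P) := ⟨_, fun _ => rfl⟩
  have e : d = fun σ => c σ - (T hV σ P - P) := funext hd'
  rw [← e] at hd h0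
  have ha : d φ ∈ Fix hV N := hd.inv hs.nor h0 φ
  obtain ⟨u, hu⟩ : ∃ u : ℕ, u = E.relIndex (Fix hV N) := ⟨_, rfl⟩
  rw [← hu] at hp
  have hu0 : u • d φ ∈ E := by
    have h1 := (E.addSubgroupOf (Fix hV N)).nsmul_index_mem ⟨d φ, ha⟩
    rw [AddSubgroup.mem_addSubgroupOf] at h1
    rw [hu]
    exact h1
  have hu1 : u • d φ ∈ Fix hV N := (Fix hV N).nsmul_mem ha u
  have hn : ∑ i ∈ Finset.range (p ^ m), T hV (φ ^ i) (u • d φ) = 0 := by
    simp only [map_nsmul]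
    rw [← Finset.smul_sum, ← hd.pow hT, h0 _ hs.phiM, smul_zero]
  obtain ⟨R, hR1, -, hR2⟩ := hco Ω G N φ p m Q hs V hW hV _ hu1 ((hE _).1 hu0) hn
  have hcop : Nat.Coprime u (p ^ m) :=
    (Nat.Coprime.pow_left m ((Nat.Prime.coprime_iff_not_dvd hs.hp).2 hp)).symm
  obtain ⟨P', hP'⟩ := coc_trivial hT hd hs.nor h0 hs.phiM hs.gen hcop ⟨R, hR1, hR2⟩
  refine ⟨P + P', fun σ => ?_⟩
  have h1 := hP' σ
  rw [hd', sub_eq_iff_eq_add] at h1
  rw [h1, map_add]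
  abel

end Pool.Agent.P8H72.UL
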