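import Pool.Agent.P8H72.UL.Abs

/-!
# Project UL, package TA: the abstract part
-/

set_option autoImplicit false

namespace Pool.Agent.P8H72.UL

/-- finite index from a finite set of representatives -/
theorem relIndex_ne_zero_of {A : Type*} [AddCommGroup A] (E F : AddSubgroup A) (S : Finset A)
    (h : ∀ P ∈ F, ∃ P' ∈ S, P' ∈ F ∧ P - P' ∈ E) : E.relIndex F ≠ 0 := by
  have h0 : Finite {x : A // x ∈ S ∧ x ∈ F} :=
    Finite.of_injective (fun x : {x : A // x ∈ S ∧ x ∈ F} => (⟨x.1, x.2.1⟩ : S))
        (fun x y e => Subtype.ext (Subtype.mk.inj e))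
  have hfin : Finite (F ⧸ E.addSubgroupOf F) := by
    refine Finite.of_surjective
      (fun x : {x : A // x ∈ S ∧ x ∈ F} =>
        (QuotientAddGroup.mk (⟨x.1, x.2.2⟩ : F) : F ⧸ E.addSubgroupOf F)) ?_
    intro y
    induction y using QuotientAddGroup.induction_on with
    | H a =>
      obtain ⟨P', h1, h2, h3⟩ := h a.1 a.2
      refine ⟨⟨P', h1, h2⟩, ?_⟩
      rw [QuotientAddGroup.eq, AddSubgroup.mem_addSubgroupOf]
      simpa [neg_add_eq_sub] using h3
  exact AddSubgroup.index_ne_zero_of_finite

variable {G A : Type*} [Group G] [AddCommGroup A] {T : G → A →+ A}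

theorem end_pow_apply {X : Type*} (f : Function.End X) (k : ℕ) (x : X) : (f ^ k) x = f^[k] x := by
  induction k generalizing x with
  | zero => rfl
  | succ k ih =>
    rw [pow_succ, Function.iterate_succ_apply]
    exact ih _

/-- the indices over the group and the subgroup are congruent -/
theorem index_modEq (hT : Act T) {N : Subgroup G} (hN : N.Normal) {φ : G} {p m : ℕ} (hp : p.Prime)
    (hM : φ ^ p ^ m ∈ N) (gen : ∀ τ : G, ∃ i : ℕ, (φ ^ i)⁻¹ * τ ∈ N)
    (E F F' : AddSubgroup A) (hF : ∀ x, x ∈ F ↔ ∀ σ ∈ N, T σ x = x)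
    (hF' : ∀ x, x ∈ F' ↔ ∀ σ, T σ x = x) (hE : ∀ x ∈ E, T φ x ∈ E) (hfin : E.relIndex F ≠ 0)
    (hco : ∀ a ∈ F, a ∈ E → ∑ i ∈ Finset.range (p ^ m), T (φ ^ i) a = 0 →
      ∃ R ∈ F, R ∈ E ∧ T φ R - R = a) :
    E.relIndex F ≡ E.relIndex F' [MOD p] := by
  classical
  have hg : ∀ x ∈ F, T φ x ∈ F := fun x hx => (hF _).2 (inv_act hT hN ((hF x).1 hx) φ)
  let g : F →+ F := ((T φ).comp F.subtype).codRestrict F (fun x => hg x.1 x.2)
  have hgE : E.addSubgroupOf F ≤ (E.addSubgroupOf F).comap g := by
    intro x hx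
    rw [AddSubgroup.mem_comap, AddSubgroup.mem_addSubgroupOf]
    exact hE _ (AddSubgroup.mem_addSubgroupOf.1 hx)
  let f : Function.End (F ⧸ E.addSubgroupOf F) :=
    fun x => QuotientAddGroup.map (E.addSubgroupOf F) (E.addSubgroupOf F) g hgE x
  have hfmk : ∀ a : F, f (QuotientAddGroup.mk a) = QuotientAddGroup.mk (g a) := fun a => rfl
  have hfk : ∀ (k : ℕ) (a : F), f^[k] (QuotientAddGroup.mk a) = QuotientAddGroup.mk (g^[k] a) := by
    intro k
    induction k with
    | zero => intro a; rfl
    | succ k ih =>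
      intro a
      rw [Function.iterate_succ_apply, Function.iterate_succ_apply, hfmk, ih]
  have hgk : ∀ (k : ℕ) (a : F), ((g^[k] a : F) : A) = T (φ ^ k) a := by
    intro k
    induction k with
    | zero => intro a; rw [pow_zero, hT.one]; rfl
    | succ k ih =>
      intro a
      rw [Function.iterate_succ_apply, ih, pow_succ, hT.mul]
      rfl
  have hf1 : f ^ p ^ m = 1 := by
    funext y
    rw [end_pow_apply]
    induction y using QuotientAddGroup.induction_on with
    | H a =>
      rw [hfk]
      have : g^[p ^ m] a = a := by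
        apply Subtype.ext
        rw [hgk]
        exact (hF a.1).1 a.2 _ hM
      rw [this]
      rfl
  have hfinX : Finite (F ⧸ E.addSubgroupOf F) :=
    AddSubgroup.index_ne_zero_iff_finite.1 hfin
  have : Fintype (F ⧸ E.addSubgroupOf F) := Fintype.ofFinite _
  have hpf : Fact p.Prime := ⟨hp⟩
  have hcard := Equiv.Perm.card_fixedPoints_modEq (f := f) hf1
  -- the fixed points
  have hle : F' ≤ F := fun x hx => (hF x).2 fun σ _ => (hF' x).1 hx σ
  have hi : E.addSubgroupOf F' ≤ (E.addSubgroupOf F).comap (AddSubgroup.inclusion hle) := by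
    intro x hx
    rw [AddSubgroup.mem_comap, AddSubgroup.mem_addSubgroupOf]
    exact AddSubgroup.mem_addSubgroupOf.1 hx
  let Ψ : F' ⧸ E.addSubgroupOf F' →+ F ⧸ E.addSubgroupOf F :=
    QuotientAddGroup.map _ _ (AddSubgroup.inclusion hle) hi
  have hΨmk : ∀ a : F', Ψ (QuotientAddGroup.mk a) =
      QuotientAddGroup.mk (AddSubgroup.inclusion hle a) := fun a => rfl
  have hinj : Function.Injective Ψ := by
    rw [injective_iff_map_eq_zero]
    intro y hy
    induction y using QuotientAddGroup.induction_on with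
    | H a =>
      rw [hΨmk, QuotientAddGroup.eq_zero_iff, AddSubgroup.mem_addSubgroupOf] at hy
      rw [QuotientAddGroup.eq_zero_iff, AddSubgroup.mem_addSubgroupOf]
      exact hy
  have hrange : Set.range Ψ = f.fixedPoints := by
    ext y
    rw [Function.mem_fixedPoints, Function.IsFixedPt]
    constructor
    · rintro ⟨z, rfl⟩
      induction z using QuotientAddGroup.induction_on with
      | H a =>
        rw [hΨmk, hfmk]
        congr 1
        apply Subtype.ext
        exact (hF' a.1).1 a.2 φ
    · intro hy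
      induction y using QuotientAddGroup.induction_on with
      | H a =>
        rw [hfmk, QuotientAddGroup.eq, AddSubgroup.mem_addSubgroupOf] at hy
        have h1 : T φ a - a ∈ E := by
          have h2 := E.neg_mem hy
          have h3 : -((-g a + a : F) : A) = T φ a - a := by
            change -(-(T φ a.1) + a.1) = T φ a.1 - a.1
            abel
          rw [h3] at h2
          exact h2
        have h2 : T φ a - a ∈ F := F.sub_mem (hg _ a.2) a.2
        have h3 : ∑ i ∈ Finset.range (p ^ m), T (φ ^ i) (T φ a - a) = 0 := by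
          have h4 : ∀ i ∈ Finset.range (p ^ m), T (φ ^ i) (T φ a - a) =
              T (φ ^ (i + 1)) a - T (φ ^ i) a := by
            intro i _
            rw [map_sub, pow_succ, hT.mul]
          rw [Finset.sum_congr rfl h4, Finset.sum_range_sub (fun i => T (φ ^ i) (a : A)), pow_zero,
            hT.one, (hF a.1).1 a.2 _ hM, sub_self]
        obtain ⟨R, hR1, hR2, hR3⟩ := hco _ h2 h1 h3
        have h5 : T φ (a - R) = a - R := by
          rw [map_sub, sub_eq_sub_iff_sub_eq_sub, ← hR3]
        have h6 : (a : A) - R ∈ F := F.sub_mem a.2 hR1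
        have h7 : (a : A) - R ∈ F' := by
          rw [hF']
          intro τ
          have h8 : Coc T (fun σ => T σ ((a : A) - R) - ((a : A) - R)) := Coc.bd hT _
          have h9 := h8.zero hT (N := N) (φ := φ)
            (fun σ hσ => by simp only [(hF _).1 h6 σ hσ, sub_self])
            (by simp only [h5, sub_self]) gen τ
          exact sub_eq_zero.1 h9
        refine ⟨QuotientAddGroup.mk ⟨(a : A) - R, h7⟩, ?_⟩
        rw [hΨmk, QuotientAddGroup.eq, AddSubgroup.mem_addSubgroupOf]
        have h8 : ((-AddSubgroup.inclusion hle ⟨(a : A) - R, h7⟩ + a : F) : A) = R := by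
          change -((a : A) - R) + a = R
          abel
        rw [h8]
        exact hR2
  have e1 : E.relIndex F = Fintype.card (F ⧸ E.addSubgroupOf F) := by
    rw [← Nat.card_eq_fintype_card]; rfl
  have e2 : E.relIndex F' = Fintype.card f.fixedPoints := by
    rw [← Nat.card_eq_fintype_card, ← hrange]
    exact Nat.card_congr (Equiv.ofInjective Ψ hinj)
  rw [e1, e2]
  exact hcard

end Pool.Agent.P8H72.UL
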