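import Pool.Agent.P8H72.UL.LT
import Pool.Agent.P8H72.UL.Abs2

/-!
# Project UL, package TA
-/

set_option autoImplicit false

open WeierstrassCurve

namespace Pool.Agent.P8H72.UL

open Pool.Agent.P8H17.UL

theorem ns_of_big {Ω : Type} [NormedField Ω] {V : WeierstrassCurve Ω} {P : Pt V} (h : Big 1 P) :
    NS P := fun x y hn e => Or.inl (h x y hn e)

/-- the nonsingular reduction is preserved by isometric automorphisms -/
theorem ns_T {Ω : Type} [NormedField Ω] {V : WeierstrassCurve Ω} {G : Subgroup (RingAut Ω)}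
    (hV : FixW V G) (iso : ∀ (τ : G) (x : Ω), ‖(τ : RingAut Ω) x‖ = ‖x‖) (τ : G) {P : Pt V}
    (hP : NS P) : NS (T hV τ P) := by
  intro x y hn e
  rcases pt_cases P with rfl | ⟨x', y', hn', rfl⟩
  · rw [map_zero] at e
    exact absurd e.symm (pt_ne _)
  · rw [T_pt] at e
    obtain ⟨e1, e2⟩ := pt_inj e
    have hfix := hV τ τ.2
    obtain ⟨τ0, hτ0⟩ : ∃ τ0 : Ω →+* Ω, τ0 = (((τ : RingAut Ω) : Ω ≃+* Ω) : Ω →+* Ω) := ⟨_, rfl⟩
    have hτ : ∀ z, τ0 z = (τ : RingAut Ω) z := fun z => by rw [hτ0]; rfl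
    have hn0 : ∀ z, ‖τ0 z‖ = ‖z‖ := fun z => by rw [hτ, iso]
    rw [← hτ0] at hfix
    have f1 : τ0 V.a₁ = V.a₁ := congrArg WeierstrassCurve.a₁ hfix
    have f2 : τ0 V.a₂ = V.a₂ := congrArg WeierstrassCurve.a₂ hfix
    have f3 : τ0 V.a₃ = V.a₃ := congrArg WeierstrassCurve.a₃ hfix
    have f4 : τ0 V.a₄ = V.a₄ := congrArg WeierstrassCurve.a₄ hfix
    have e1' : τ0 x' = x := by rw [hτ]; exact e1
    have e2' : τ0 y' = y := by rw [hτ]; exact e2
    rcases hP x' y' hn' rfl with h | h | h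
    · left; rw [← e1', hn0]; exact h
    · right; left
      rw [← h, ← hn0 (V.a₁ * y' - (3 * x' ^ 2 + 2 * V.a₂ * x' + V.a₄))]
      simp only [map_sub, map_add, map_mul, map_pow, map_ofNat, f1, f2, f4, e1', e2']
    · right; right
      rw [← h, ← hn0 (2 * y' + V.a₁ * x' + V.a₃)]
      simp only [map_add, map_mul, map_ofNat, f1, f3, e1', e2']

/-- TA: the indices of the points with nonsingular reduction -/
theorem ta (hfi : S_FI) (hco : S_CO) : S_TA := by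
  intro Ω _ _ _ G N φ p m Q hs V hW hV E hE
  have hT : Act (T hV) := act_T hV
  have h1 : E.relIndex (Fix hV N) ≠ 0 := by
    obtain ⟨S, hS⟩ := hfi Ω hs.na G N hs.tb V hW hV
    refine relIndex_ne_zero_of E _ S fun P hP => ?_
    obtain ⟨P', h1, h2, h3⟩ := hS P hP
    exact ⟨P', h1, h2, (hE _).2 (ns_of_big h3)⟩
  have h2 : E.relIndex (Fix hV ⊤) ≠ 0 := by
    intro h0
    have hle : Fix hV (⊤ : Subgroup G) ≤ Fix hV N := fun x hx σ _ => hx σ (Subgroup.mem_top σ)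
    exact h1 (AddSubgroup.relIndex_eq_zero_of_le_right hle h0)
  refine ⟨?_, h1, h2⟩
  have key := index_modEq hT hs.nor hs.hp hs.phiM hs.gen E (Fix hV N) (Fix hV ⊤)
    (fun x => mem_Fix hV N x) (fun x => by
      rw [mem_Fix]
      exact ⟨fun h σ => h σ (Subgroup.mem_top σ), fun h σ _ => h σ⟩)
    (fun x hx => (hE _).2 (ns_T hV hs.iso φ ((hE _).1 hx))) h1
    (fun a ha haE hn => by
      obtain ⟨R, hR1, hR2, hR3⟩ := hco Ω G N φ p m Q hs V hW hV a ha ((hE _).1 haE) hn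
      exact ⟨R, hR1, (hE _).2 hR2, hR3⟩)
  exact Nat.ModEq.dvd_iff key (dvd_refl p)

end Pool.Agent.P8H72.UL
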